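import Pool.Agent.Q328.BG.Red
import Pool.Agent.Q328.BG.Mem

/-!
# Solving Boggle logic puzzles is NP-complete

Reduction from bin packing with numbers in unary (which is NP-hard by a reduction from exact cover
by 3-sets).  For `b` bins of capacity `B` and sizes `a_i` with sum `b B` the board has side
`n = (2 b + 2) B`.  The puzzle describes `n / 2 - b` strips of two rows and `n` columns, and for
every item a strip of two rows and `(2 b + 2) a_i` columns; two words of length four make the four
letters of two consecutive columns of a strip pairwise adjacent.  Four pairwise adjacent cells form
a square, and so a strip is drawn as a rectangle.  The full strips are parallel, they leave only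
`2 b` lines, and so the items are parallel to them; each strip covers one line with even number, and
`b` of these lines are left for the items.
-/

set_option autoImplicit false

namespace Pool.Agent.Results.MP_406c0a_lc.BoggleNPComplete

open Pool.Agent.NPC Pool.Agent.NPC.Q328.BG

/-- BOGGLE-SOLVE is NP-complete. -/
theorem result : InNPP BoggleSolve ∧ NPHardP BoggleSolve := ⟨mem, hard⟩

end Pool.Agent.Results.MP_406c0a_lc.BoggleNPComplete
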